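import Mathlib

set_option autoImplicit false

namespace Pool.Agent.Results.MP_4ce577_al.NoIntegral

/-- The word `w` is a law of the group `G`. -/
def IsLaw (G : Type) [Group G] (w : FreeGroup ℕ) : Prop :=
  ∀ f : ℕ → G, FreeGroup.lift f w = 1

/-- `K` lies in the variety `Var(G)` generated by `G`: every law of `G` is a law of `K`. -/
def InVar (G K : Type) [Group G] [Group K] : Prop := ∀ w, IsLaw G w → IsLaw K w

/-- `H` is an integral of `G`: the derived subgroup of `H` is isomorphic to `G`. -/
def IsIntegralOf (H G : Type) [Group H] [Group G] : Prop := Nonempty (commutator H ≃* G)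

/-- Proof device: the cyclic group of order two. -/
abbrev C2 : Type := Multiplicative (ZMod 2)

/-- Proof device: the wreath product of the cyclic groups of orders two and three. -/
abbrev W : Type := RegularWreathProduct C2 (Multiplicative (ZMod 3))

theorem integrable : IsIntegralOf (DihedralGroup 4) C2 := by
  have h : commutator (DihedralGroup 4) = Subgroup.zpowers (DihedralGroup.r 2) := by
    apply le_antisymm
    · rw [commutator_def, Subgroup.commutator_le]
      intro a _ b _
      have : ∀ a b : DihedralGroup 4, a * b * a⁻¹ * b⁻¹ = 1 ∨ a * b * a⁻¹ * b⁻¹ = .r 2 := by decide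
      rcases this a b with h | h <;> rw [commutatorElement_def, h]
      exacts [one_mem _, Subgroup.mem_zpowers _]
    · rw [Subgroup.zpowers_le]
      have := Subgroup.commutator_mem_commutator (Subgroup.mem_top (DihedralGroup.r 1))
        (Subgroup.mem_top (DihedralGroup.sr (0 : ZMod 4)))
      rwa [commutatorElement_def, show DihedralGroup.r (1 : ZMod 4) * .sr 0 * (DihedralGroup.r 1)⁻¹ *
        (DihedralGroup.sr 0)⁻¹ = .r 2 by decide] at this
  have : Fact (Nat.Prime 2) := ⟨Nat.prime_two⟩
  refine ⟨mulEquivOfPrimeCardEq (p := 2) ?_ (by simp)⟩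
  rw [h, Nat.card_zpowers]
  exact orderOf_eq_prime (by decide) (by decide)

theorem inW : InVar C2 (commutator W) := by
  intro w hw f
  have hr : ∀ x : commutator W, x.1.right = 1 := fun x =>
    Abelianization.commutator_subset_ker (RegularWreathProduct.rightHom (D := C2)) x.2
  have hl : ∀ i, (FreeGroup.lift f w).1.left i = 1 := fun i => by
    let φ : commutator W →* C2 := MonoidHom.mk' (fun x => x.1.left i) fun x y => by
      simp [hr x]
    have h1 : φ.comp (FreeGroup.lift f) = FreeGroup.lift (φ ∘ f) := by ext; simp
    exact (DFunLike.congr_fun h1 w).trans (hw _)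
  exact Subtype.ext (RegularWreathProduct.ext (funext hl) (hr _))

theorem result : ∃ (G : Type) (_ : Group G), Finite G ∧
    (∃ (H : Type) (_ : Group H), IsIntegralOf H G) ∧
    ∀ (H : Type) [Group H], IsIntegralOf H G →
      ¬ ∀ (K : Type) [Group K], InVar H K ↔ InVar G (commutator K) := by
  refine ⟨C2, inferInstance, inferInstance, ⟨_, _, integrable⟩, fun H _ ⟨e⟩ h => ?_⟩
  let c : FreeGroup ℕ := .of 0 * .of 1 * (.of 0)⁻¹ * (.of 1)⁻¹
  have hH : IsLaw H (.of 2 * c * (.of 2)⁻¹ * c⁻¹) := by
    intro f
    have h1 : FreeGroup.lift f c ∈ commutator H := by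
      have := Subgroup.commutator_mem_commutator (Subgroup.mem_top (f 0)) (Subgroup.mem_top (f 1))
      simpa [c, commutatorElement_def, commutator_def] using this
    have h2 : f 2 * FreeGroup.lift f c * (f 2)⁻¹ ∈ commutator H :=
      Subgroup.Normal.conj_mem inferInstance _ h1 _
    simp only [map_mul, map_inv, FreeGroup.lift_apply_of, mul_inv_eq_one]
    by_cases h3 : FreeGroup.lift f c = 1
    · simp [h3]
    · have h4 : ∀ a b : C2, a ≠ 1 → b ≠ 1 → a = b := by decide
      have := h4 (e ⟨_, h2⟩) (e ⟨_, h1⟩) (by simpa [Subtype.ext_iff] using h3)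
        (by simpa [Subtype.ext_iff] using h3)
      exact congrArg Subtype.val (e.injective this)
  let x : W := ⟨fun i => if i = 1 then .ofAdd 1 else 1, 1⟩
  let y : W := ⟨1, .ofAdd 1⟩
  have := congrArg (fun g : W => g.left 1)
    ((h W).2 inW _ hH fun n => if n = 0 then x else y)
  simp only [c, map_mul, map_inv, FreeGroup.lift_apply_of] at this
  revert this
  decide

end Pool.Agent.Results.MP_4ce577_al.NoIntegral
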